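import Mathlib

namespace Pool.Agent.Results.MP_b3c6e2_an.Union
open Set Filter Topology RCLike

/-- the (I)-envelope, through its description by sequences in the unit ball -/
def Ienv {𝕜 X : Type} [RCLike 𝕜] [NormedAddCommGroup X] [NormedSpace 𝕜 X]
    (A : Set (StrongDual 𝕜 X)) : Set (StrongDual 𝕜 X) :=
  {η | ∀ x : ℕ → X, (∀ n, ‖x n‖ ≤ 1) → ⨅ n, ((re (η (x n)) : ℝ) : EReal) ≤
    ⨆ ξ ∈ A, limsup (fun n => ((re (ξ (x n)) : ℝ) : EReal)) atTop}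

lemma bisect {Y : Type} [TopologicalSpace Y] [RegularSpace Y] (w : ℕ → Y) (R : Y → ℝ → Prop)
    (hR : IsClosed {p : Y × ℝ | R p.1 p.2})
    (h : ∀ k, MapClusterPt k atTop w → ∃ l ∈ Icc (0 : ℝ) 1, R k l) :
    ∃ φ : ℕ → ℕ, Tendsto φ atTop atTop ∧ ∃ l ∈ Icc (0 : ℝ) 1,
      ∀ k, MapClusterPt k atTop (w ∘ φ) → R k l := by
  let P : ℕ → Set ℕ × ℝ → Prop := fun j s => s.1.Infinite ∧ s.2 ∈ Icc (0 : ℝ) (1 - (1 / 2) ^ j) ∧
    ∀ k, MapClusterPt k (atTop ⊓ 𝓟 s.1) w → ∃ l ∈ Icc s.2 (s.2 + (1 / 2) ^ j), R k l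
  have h1 : ∀ j s, P j s → ∃ t, P (j + 1) t ∧ t.1 ⊆ s.1 ∧ s.2 ≤ t.2 := by
    rintro j ⟨M, a⟩ ⟨h1, h2, h3⟩
    have hd : (1 / 2 : ℝ) ^ j = (1 / 2) ^ (j + 1) + (1 / 2) ^ (j + 1) := by ring
    have hd' : 0 < (1 / 2 : ℝ) ^ (j + 1) := by positivity
    have hW : IsClosed {k | ∃ l ∈ Icc a (a + (1 / 2) ^ (j + 1)), R k l} := by
      convert isClosedMap_fst_of_compactSpace _ (hR.preimage (f := fun p : Y × Icc a
        (a + (1 / 2) ^ (j + 1)) => (p.1, p.2.1)) (by fun_prop))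
      ext k
      simp
    by_cases h4 : ∀ k, MapClusterPt k (atTop ⊓ 𝓟 M) w → ∃ l ∈ Icc a (a + (1 / 2) ^ (j + 1)), R k l
    · exact ⟨(M, a), ⟨h1, ⟨h2.1, by linarith [h2.2]⟩, h4⟩, Subset.rfl, le_rfl⟩
    obtain ⟨k0, h4⟩ := not_forall.1 h4
    obtain ⟨h4, h5⟩ := Classical.not_imp.1 h4
    obtain ⟨V, h6, h7, h8⟩ := exists_mem_nhds_isClosed_subset (hW.isOpen_compl.mem_nhds h5)
    refine ⟨(M ∩ w ⁻¹' V, a + (1 / 2) ^ (j + 1)), ⟨Nat.frequently_atTop_iff_infinite.1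
      (frequently_inf_principal.1 (mapClusterPt_iff_frequently.1 h4 V h6)),
      ⟨by linarith [h2.1], by linarith [h2.2]⟩, fun k hk => ?_⟩, inter_subset_left, by linarith⟩
    obtain ⟨l, h9, h10⟩ := h3 k (hk.mono (inf_le_inf_left _ (principal_mono.2 inter_subset_left)))
    refine ⟨l, ⟨le_of_not_ge fun h11 => h8 (h7.mem_of_mapClusterPt hk
      (mem_inf_of_right (mem_principal.2 inter_subset_right))) ⟨l, ⟨h9.1, h11⟩, h10⟩, ?_⟩, h10⟩
    linarith [h9.2]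
  choose! nx h1 h2 h3 using h1
  let s : ℕ → Set ℕ × ℝ := fun j => j.rec (univ, 0) nx
  have h4 : ∀ j, P j (s j) := fun j => j.rec ⟨infinite_univ, by simp [s], by simpa [s] using h⟩
    fun j ih => h1 j _ ih
  have h5 : Antitone fun j => (s j).1 := antitone_nat_of_succ_le fun j => h2 j _ (h4 j)
  have h6 : ∀ j, (s j).2 ∈ Icc (0 : ℝ) 1 := fun j =>
    ⟨(h4 j).2.1.1, (h4 j).2.1.2.trans (sub_le_self _ (by positivity))⟩
  have h7 := tendsto_atTop_ciSup (monotone_nat_of_le_succ (f := fun j => (s j).2) fun j =>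
    h3 j _ (h4 j)) ⟨1, by rintro _ ⟨j, rfl⟩; exact (h6 j).2⟩
  choose φ h8 h9 using fun j => (h4 j).1.exists_gt j
  have h10 : Tendsto φ atTop atTop := tendsto_atTop_mono (fun j => (h9 j).le) tendsto_id
  refine ⟨φ, h10, _, isClosed_Icc.mem_of_tendsto h7 (.of_forall h6), fun k hk => ?_⟩
  choose l h11 h12 using fun j => (h4 j).2.2 k (hk.of_comp (tendsto_inf.2 ⟨h10, tendsto_principal.2
    ((eventually_ge_atTop j).mono fun i hi => h5 hi (h8 i))⟩))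
  have h13 := h7.add (tendsto_pow_atTop_nhds_zero_of_lt_one (r := (1 / 2 : ℝ)) (by norm_num)
    (by norm_num))
  rw [add_zero] at h13
  exact hR.mem_of_tendsto (tendsto_const_nhds.prodMk_nhds
    (tendsto_of_tendsto_of_tendsto_of_le_of_le h7 h13 (fun j => (h11 j).1) fun j => (h11 j).2))
    (.of_forall h12)

lemma two {S : Set (ℝ × ℝ)} (hS : Convex ℝ S) (h : ∀ p ∈ S, p.1 ≤ 0 ∨ p.2 ≤ 0) :
    ∃ l ∈ Icc (0 : ℝ) 1, ∀ p ∈ S, l * p.1 + (1 - l) * p.2 ≤ 0 := by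
  obtain ⟨l, h1, h2⟩ := exists_between_of_forall_le
    (s := insert 0 ((fun p : ℝ × ℝ => p.2 / (p.2 - p.1)) '' {p ∈ S | 0 < p.2}))
    (t := insert 1 ((fun p : ℝ × ℝ => -p.2 / (p.1 - p.2)) '' {p ∈ S | 0 < p.1}))
    (insert_nonempty _ _) (insert_nonempty _ _) (by
      rintro _ (rfl | ⟨p, ⟨h1, h2⟩, rfl⟩) _ (rfl | ⟨q, ⟨h3, h4⟩, rfl⟩)
      · exact zero_le_one
      · have := (h q h3).resolve_left h4.not_ge
        exact div_nonneg (by linarith) (by linarith)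
      · have := (h p h1).resolve_right h2.not_ge
        exact (div_le_one (by linarith)).2 (by linarith)
      · have h5 := (h q h3).resolve_left h4.not_ge
        have h6 := (h p h1).resolve_right h2.not_ge
        have h7 : 0 < p.2 - p.1 + (q.1 - q.2) := by linarith
        have h8 := h _ (hS h1 h3 (div_nonneg (by linarith : 0 ≤ q.1 - q.2) h7.le)
          (div_nonneg (by linarith : 0 ≤ p.2 - p.1) h7.le) (by field_simp; ring))
        simp only [Prod.fst_add, Prod.snd_add, Prod.smul_fst, Prod.smul_snd, smul_eq_mul,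
          div_mul_eq_mul_div, ← add_div, div_le_iff₀ h7] at h8
        refine (div_le_div_iff₀ (by linarith) (by linarith)).2 ?_
        rcases h8 with h8 | h8 <;> linarith)
  have h3 := h1 (mem_insert _ _)
  have h4 := h2 (mem_insert _ _)
  refine ⟨l, ⟨h3, h4⟩, fun p hp => ?_⟩
  rcases lt_or_ge 0 p.2 with h5 | h5
  · have h6 := (h p hp).resolve_right h5.not_ge
    have := (div_le_iff₀ (by linarith)).1 (h1 (mem_insert_of_mem _ ⟨p, ⟨hp, h5⟩, rfl⟩))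
    linarith
  rcases lt_or_ge 0 p.1 with h6 | h6
  · have := (le_div_iff₀ (by linarith)).1 (h2 (mem_insert_of_mem _ ⟨p, ⟨hp, h6⟩, rfl⟩))
    linarith
  · nlinarith

variable {𝕜 X : Type} [RCLike 𝕜] [NormedAddCommGroup X] [NormedSpace 𝕜 X]

lemma not_mem {A : Set (StrongDual 𝕜 X)} {η : StrongDual 𝕜 X} (h : η ∉ Ienv A) :
    ∃ x : ℕ → X, (∀ n, ‖x n‖ ≤ 1) ∧ ∃ a b : ℝ, a < b ∧ (∀ n, b ≤ re (η (x n))) ∧
      ∀ ξ ∈ A, ∀ᶠ n in atTop, re (ξ (x n)) ≤ a := by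
  obtain ⟨x, h⟩ := not_forall.1 h
  obtain ⟨h1, h2⟩ := Classical.not_imp.1 h
  obtain ⟨a, h3, h4⟩ := EReal.lt_iff_exists_real_btwn.1 (not_le.1 h2)
  obtain ⟨b, h5, h6⟩ := EReal.lt_iff_exists_real_btwn.1 h4
  exact ⟨x, h1, a, b, EReal.coe_lt_coe_iff.1 h5,
    fun n => EReal.coe_le_coe_iff.1 (h6.le.trans (iInf_le _ n)), fun ξ hξ =>
      (eventually_lt_of_limsup_lt ((le_iSup₂_of_le ξ hξ le_rfl).trans_lt h3)).mono
        fun n hn => (EReal.coe_lt_coe_iff.1 hn).le⟩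

theorem result (𝕜 X : Type) [RCLike 𝕜] [NormedAddCommGroup X] [NormedSpace 𝕜 X]
    (A B : Set (StrongDual 𝕜 X))
    (hC : ∀ ξ ∈ A ∪ B, ∀ ζ ∈ A ∪ B, ∀ t : ℝ, 0 ≤ t → t ≤ 1 →
      (t : 𝕜) • ξ + ((1 - t : ℝ) : 𝕜) • ζ ∈ A ∪ B) :
    Ienv (A ∪ B) = Ienv A ∪ Ienv B := by
  refine Subset.antisymm (fun η hη => by_contra fun hn => ?_) (union_subset
    (fun η h x hx => (h x hx).trans (biSup_mono fun _ => Or.inl))
    fun η h x hx => (h x hx).trans (biSup_mono fun _ => Or.inr))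
  obtain ⟨x, hx, a, b, hab, h1, h2⟩ := not_mem fun h => hn (Or.inl h)
  obtain ⟨y, hy, c, d, hcd, h3, h4⟩ := not_mem fun h => hn (Or.inr h)
  let w : ℕ → StrongDual 𝕜 X → ℝ × ℝ := fun n ξ => (re (ξ (x n)) - a, re (ξ (y n)) - c)
  obtain ⟨φ, h5, l, h6, h7⟩ := bisect w
    (fun k l => ∀ ξ ∈ A ∪ B, l * (k ξ).1 + (1 - l) * (k ξ).2 ≤ 0) (by
      simp only [ofPred_forall]
      exact isClosed_iInter fun ξ => isClosed_iInter fun _ => isClosed_le (by fun_prop)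
        continuous_const) fun k hk => by
      obtain ⟨l, h5, h6⟩ := two (S := k '' (A ∪ B)) (by
        rintro _ ⟨ξ, hξ, rfl⟩ _ ⟨ζ, hζ, rfl⟩ s t hs ht hst
        obtain rfl : t = 1 - s := by linarith
        refine ⟨_, hC ξ hξ ζ hζ s hs (by linarith), (isClosed_eq (continuous_apply _)
          (g := fun k : StrongDual 𝕜 X → ℝ × ℝ => s • k ξ + (1 - s) • k ζ)
          (by fun_prop)).mem_of_mapClusterPt hk (.of_forall fun n => ?_)⟩
        show w n _ = s • w n ξ + (1 - s) • w n ζ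
        simp only [w, add_apply, smul_apply, smul_eq_mul, map_add, re_ofReal_mul, Prod.smul_mk,
          Prod.mk_add_mk, Prod.mk.injEq]
        constructor <;> ring) (by
        rintro _ ⟨ξ, hξ | hξ, rfl⟩
        · exact Or.inl ((isClosed_le (f := fun k : StrongDual 𝕜 X → ℝ × ℝ => (k ξ).1) (by fun_prop)
            continuous_const).mem_of_mapClusterPt hk ((h2 ξ hξ).mono fun n => sub_nonpos.2))
        · exact Or.inr ((isClosed_le (f := fun k : StrongDual 𝕜 X → ℝ × ℝ => (k ξ).2) (by fun_prop)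
            continuous_const).mem_of_mapClusterPt hk ((h4 ξ hξ).mono fun n => sub_nonpos.2)))
      exact ⟨l, h5, fun ξ hξ => h6 _ ⟨ξ, hξ, rfl⟩⟩
  have h8 : 0 ≤ 1 - l := sub_nonneg.2 h6.2
  have h9 : ∀ (ξ : StrongDual 𝕜 X) n, re (ξ ((l : 𝕜) • x n + ((1 - l : ℝ) : 𝕜) • y n)) =
      l * re (ξ (x n)) + (1 - l) * re (ξ (y n)) := fun ξ n => by
    simp only [map_add, map_smul ξ, smul_eq_mul, re_ofReal_mul]
  obtain ⟨e, h10, h11⟩ : ∃ e, l * a + (1 - l) * c < e ∧ e < l * b + (1 - l) * d :=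
    exists_between (by rcases h6.1.eq_or_lt with h | h <;> nlinarith)
  refine not_lt.2 (hη (fun n => (l : 𝕜) • x (φ n) + ((1 - l : ℝ) : 𝕜) • y (φ n)) fun n => ?_)
    (lt_of_le_of_lt (iSup₂_le fun ξ hξ => limsup_le_of_le (h := ?_))
      ((EReal.coe_lt_coe_iff.2 h11).trans_le (le_iInf fun n => EReal.coe_le_coe_iff.2 ?_)))
  · refine (norm_add_le _ _).trans ?_
    rw [norm_smul, norm_smul, norm_ofReal, norm_ofReal, abs_of_nonneg h6.1, abs_of_nonneg h8]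
    nlinarith [hx (φ n), hy (φ n), h6.1]
  · by_contra h12
    have hb : ∀ (ζ : StrongDual 𝕜 X) (z : X) (r : ℝ), ‖z‖ ≤ 1 →
        re (ζ z) - r ∈ Icc (-‖ζ‖ - r) (‖ζ‖ - r) := fun ζ z r hz => by
      have := abs_le.1 ((abs_re_le_norm _).trans (ζ.unit_le_opNorm z hz))
      exact ⟨by linarith [this.1], by linarith [this.2]⟩
    obtain ⟨k, h13, h14⟩ := ((isCompact_univ_pi fun ζ : StrongDual 𝕜 X =>
      (isCompact_Icc (a := -‖ζ‖ - a) (b := ‖ζ‖ - a)).prod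
        (isCompact_Icc (a := -‖ζ‖ - c) (b := ‖ζ‖ - c))).inter_right (isClosed_le
          (continuous_const (y := e - (l * a + (1 - l) * c)))
          (g := fun k => l * (k ξ).1 + (1 - l) * (k ξ).2) (by fun_prop))
      ).exists_mapClusterPt_of_frequently (f := w ∘ φ) ((not_eventually.1 h12).mono fun n hn =>
        ⟨fun ζ _ => ⟨hb _ _ _ (hx _), hb _ _ _ (hy _)⟩, by
          rw [EReal.coe_le_coe_iff, h9, not_le] at hn
          show _ ≤ l * (_ - a) + (1 - l) * (_ - c)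
          linarith⟩)
    have h15 : e - (l * a + (1 - l) * c) ≤ l * (k ξ).1 + (1 - l) * (k ξ).2 := h13.2
    linarith [h7 k h14 ξ hξ]
  · rw [h9]
    nlinarith [h1 (φ n), h3 (φ n), h6.1]

end Pool.Agent.Results.MP_b3c6e2_an.Union
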